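import Mathlib
import Pool.Agent.L5helper18.SN.Blocks
import Pool.Agent.L5helper18.SN.Up

/-!
# Symmetric switching networks for directed reachability: Savitch's theorem is optimal
-/

set_option autoImplicit false

namespace Pool.Agent.Results.MP_e46137_lc.InvariantNetworks

open Equiv Pool.Agent.L5helper18.SN

/-- Undirected switching networks (with arbitrary negations) for directed reachability which are invariant under
renaming the vertices inside blocks of `n` vertices have `n ^ (c * log L)` nodes, where `L` is the length of the paths;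
fully invariant undirected networks with `(4 * L * |V|) ^ (log L + 2)` nodes exist; and one directed invariant network
with `|V|` nodes does the same. -/
theorem result :
    (∀ ε : ℝ, 0 < ε → ε ≤ 1 → ∃ n₀ : ℕ, ∀ (V : Type) (s t : V) (D : Finset V) (block : V → ℕ)
      (N : Network V) (L n q : ℕ),
      s ≠ t → s ∉ D → t ∉ D → n₀ ≤ L → L ≤ D.card → n₀ ≤ n → Real.log L ^ 4 ≤ n →
      (∀ v ∈ D, n ≤ (D.filter fun w => block w = block v).card) →
      8 * q ≤ n → (q : ℝ) ≤ (L : ℝ) ^ (1 - ε) → N.Reads D q →
      (∀ π : Perm V, (∀ v, v ∉ D → π v = v) → (∀ v, block (π v) = block v) → N.InvariantUnder π) →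
      (∀ G, Tame G → Within G L s t → N.Accepts G) →
      (∀ G, Tame G → N.Accepts G → Connected G s t) →
      (n : ℝ) ^ (ε / 9 * Real.log L) ≤ N.size) ∧
    (∀ (V : Type) [Fintype V] (s t : V) (L : ℕ), 1 ≤ L → ∃ N : Network V,
      N.size ≤ (4 * L * Fintype.card V) ^ (Nat.log 2 L + 2) ∧ (∀ D, N.Reads D 2) ∧
      (∀ π : Perm V, π s = s → π t = t → N.InvariantUnder π) ∧
      (∀ G, Within G L s t → N.Accepts G) ∧ (∀ G, N.Accepts G → Connected G s t)) ∧
    ∀ (V : Type) [Fintype V] (s t : V), ∃ N : Network V,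
      N.size = Fintype.card V ∧ (∀ D, N.Reads D 2) ∧
      (∀ π : Perm V, π s = s → π t = t → N.InvariantUnder π) ∧
      ∀ G, N.DirectedAccepts G ↔ Connected G s t :=
  ⟨fun _ h0 h1 => lower_blocks h0 h1, fun V _ s t L hL => upper V s t L hL,
    fun V _ s t => ⟨dirNet V s t, dirNet_spec V s t⟩⟩

end Pool.Agent.Results.MP_e46137_lc.InvariantNetworks
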