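import Pool.Agent.L5helper55.NT.Defs
import Pool.Agent.L5helper55.NT.Final
import Pool.Agent.L5helper55.NT.Low

/-!
# The exact noise threshold for directed reachability

The input is `D ∪ R`, where `D` is an arbitrary digraph on `n` vertices and `R` is random: each ordered
pair is an arc with probability `p`. Polynomial size switching networks decide exactly the languages of
nonuniform deterministic logarithmic space, and directed connectivity is complete for `NL`.

Above the threshold, `p ≥ c / n` with `c > 1`, polynomial size networks without negations decide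
connectivity from `s` to `t` for every `D` with small error (they look for subgraphs with a constant
number of arcs only), and polynomial size networks with negations decide it for all pairs `s`, `t` at the
same time with probability `1 - n ^ (- k)`. At and below the threshold, `p ≤ (1 + n ^ (- δ)) / n`, noisy
connectivity is as hard as connectivity itself: it has polynomial size networks if and only if
`NL ⊆ L / poly`, and networks without negations need `n ^ (η log n)` nodes.

Ingredients: exploration of the reachable set, where the row of a processed vertex is independent of the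
past; two explorations, forward from `s` and backward from `t`, are linked by arcs which neither of them
has seen; if fewer than `K` vertices are reachable, then the path is found by deterministic walks which
keep a bit vector of length `K` indexed by hash values (so logarithmically many reachable vertices can be
searched by polynomial size programs); derandomisation by iterated majorities of three, survival
probability of the critical random digraph, and a reduction to degree two.
-/

namespace Pool.Agent.Results.MP_e46137_lc.NoiseThreshold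

open Pool.Agent.L5helper12.SN Pool.Agent.L5helper55.NT Finset

theorem wt_eq (n : ℕ) (p : ℝ) (R : Finset (Fin n × Fin n)) :
    wt p R = p ^ R.card * (1 - p) ^ (n ^ 2 - R.card) := by
  unfold wt
  rw [prod_ite, prod_const, prod_const]
  congr 2
  · simp
  · rw [filter_not, card_sdiff_of_subset (filter_subset _ _), card_univ, Fintype.card_prod,
      Fintype.card_fin, ← sq]
    congr 2
    simp

theorem prob_eq (n : ℕ) (p : ℝ) (A : Set (Fin n × Fin n) → Prop) :
    prob n p A = pr p (fun R : Finset (Fin n × Fin n) => A ↑R) := by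
  classical
  rw [pr_def]
  unfold prob ex
  apply sum_congr rfl
  intro R _
  rw [wt_eq]
  by_cases h : A ↑R <;> simp [h]

theorem rightOn_iff {n : ℕ} (N : Network (Fin n)) (s t : Fin n) (p : ℝ)
    (D : Set (Fin n × Fin n)) (ε : ℝ) : RightOn N s t p D ε ↔
      pr p (fun R : Finset (Fin n × Fin n) =>
        ¬ (N.Accepts (D ∪ ↑R) ↔ Connected (D ∪ ↑R) s t)) ≤ ε := by
  unfold RightOn
  rw [prob_eq]

theorem result :
    -- above the threshold, without negations
    (∀ c : ℝ, 1 < c → ∀ ε : ℝ, 0 < ε → ∃ K a : ℕ, ∀ (n : ℕ) (s t : Fin n), ∃ N : Network (Fin n),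
      N.negated = ∅ ∧ N.size ≤ a * n ^ a ∧
      (∀ G, N.Accepts G ↔ ∃ T : Finset (Fin n × Fin n), T.card ≤ K ∧ ↑T ⊆ G ∧ N.Accepts ↑T) ∧
      ∀ p : ℝ, c / n ≤ p → p ≤ 1 → ∀ D, RightOn N s t p D ε) ∧
    -- above the threshold, all pairs of vertices simultaneously
    (∀ c : ℝ, 1 < c → ∀ k : ℕ, ∃ a : ℕ, ∀ n : ℕ, ∃ N : Fin n → Fin n → Network (Fin n),
      (∀ s t, (N s t).size ≤ a * n ^ a) ∧ ∀ p : ℝ, c / n ≤ p → p ≤ 1 → ∀ D,
        prob n p (fun R => ∃ s t, ¬ ((N s t).Accepts (D ∪ R) ↔ Connected (D ∪ R) s t)) ≤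
          1 / (n : ℝ) ^ k) ∧
    -- the threshold window
    (∃ a n₀ : ℕ, ∀ n : ℕ, n₀ ≤ n → ∀ s t : Fin n, ∃ N : Network (Fin n), N.size ≤ n ^ a ∧
      ∀ p : ℝ, (1 + 8 * √(Real.log (Real.log n) / Real.log n)) / n ≤ p → p ≤ 1 →
        ∀ D, RightOn N s t p D (1 / 3)) ∧
    -- at and below the threshold: as hard as connectivity itself
    (∀ δ : ℝ, 0 < δ → ∀ p : ℕ → ℝ, (∀ n, 0 ≤ p n ∧ p n ≤ 1 ∧ p n * n ≤ 1 + (n : ℝ) ^ (-δ)) →
      ((∃ a : ℕ, ∀ (n : ℕ) (s t : Fin n), ∃ N : Network (Fin n), N.size ≤ a * n ^ a ∧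
          ∀ D, DegreeTwo D → RightOn N s t (p n) D (1 / 3)) ↔
        ∃ a : ℕ, ∀ (n : ℕ) (s t : Fin n), ∃ N : Network (Fin n), N.size ≤ a * n ^ a ∧
          N.Decides s t)) ∧
    -- at and below the threshold: networks without negations
    (∀ δ : ℝ, 0 < δ → ∃ η : ℝ, 0 < η ∧ ∃ n₀ : ℕ, ∀ n ≥ n₀, ∀ p : ℝ, 0 ≤ p →
      p * n ≤ 1 + (n : ℝ) ^ (-δ) → ∀ s t : Fin n, s ≠ t → ∀ N : Network (Fin n), N.negated = ∅ →
        (∀ D, DegreeTwo D → RightOn N s t p D (1 / 3)) → (n : ℝ) ^ (η * Real.log n) ≤ N.size) ∧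
    -- noise which does not connect the vertices of a set: negated variables
    (∃ C : ℝ, 0 < C ∧ ∀ (m n : ℕ) (p : ℝ), 0 ≤ p → p ≤ 1 → ∀ (f : Fin m ↪ Fin n) (s t : Fin m),
      s ≠ t → prob n p (fun R => ∃ u w, u ≠ w ∧ Connected R (f u) (f w)) ≤ 1 / 12 →
      ∀ N : Network (Fin n), (∀ H, RightOn N (f s) (f t) p (image f H) (1 / 3)) →
        ({e : Fin m × Fin m | (f e.1, f e.2) ∉ N.negated}.ncard : ℝ) ≤
          m * Real.exp (C * (1 + √(Real.log (m * N.size))))) := by
  refine ⟨?_, ?_, ?_, ?_, ?_, ?_⟩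
  · intro c hc ε hε
    obtain ⟨K, a, h⟩ := part_one hc hε
    refine ⟨K, a, ?_⟩
    intro n s t
    obtain ⟨𝒯, h1, ⟨N, h2, h3, h4⟩, h5⟩ := h n s t
    refine ⟨N, ?_, h2, ?_, ?_⟩
    · rw [Set.eq_empty_iff_forall_notMem]
      rintro e ⟨x, y, hxy⟩
      exact h3 x y e hxy
    · intro G
      rw [h4]
      constructor
      · rintro ⟨T, hT, hTG⟩
        exact ⟨T, h1 T hT, hTG, (h4 ↑T).mpr ⟨T, hT, subset_rfl⟩⟩
      · rintro ⟨T, _, hTG, hT⟩
        obtain ⟨T', hT', hTT⟩ := (h4 ↑T).mp hT
        exact ⟨T', hT', hTT.trans hTG⟩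
    · intro p hp hp1 D
      have hp0 : 0 ≤ p := le_trans (by positivity) hp
      rw [rightOn_iff]
      refine le_trans (pr_mono hp0 hp1 ?_) (h5 p hp0 hp hp1 D)
      intro R hR
      rwa [h4] at hR
  · intro c hc k
    obtain ⟨a, h⟩ := part_two hc k
    refine ⟨a, ?_⟩
    intro n
    rcases Nat.eq_zero_or_pos n with hn | hn
    · subst hn
      refine ⟨fun s => s.elim0, fun s => s.elim0, ?_⟩
      intro p hp hp1 D
      have hp0 : 0 ≤ p := by simpa using hp
      have h0 : prob 0 p (fun R => ∃ s t, ¬ (((fun s : Fin 0 => s.elim0 : Fin 0 → Fin 0 →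
          Network (Fin 0)) s t).Accepts (D ∪ R) ↔ Connected (D ∪ R) s t)) ≤ 0 := by
        rw [prob_eq]
        apply le_of_eq
        apply pr_false
        rintro R ⟨s, _⟩
        exact s.elim0
      exact h0.trans (by positivity)
    · obtain ⟨F, h1, h2⟩ := h n hn
      choose N h3 _ h4 using h1
      refine ⟨N, h3, ?_⟩
      intro p hp hp1 D
      have hp0 : 0 ≤ p := le_trans (by positivity) hp
      rw [prob_eq]
      refine le_trans (pr_mono hp0 hp1 ?_) (h2 p hp0 hp hp1 D)
      rintro R ⟨s, t, hR⟩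
      rw [h4] at hR
      exact ⟨s, t, hR⟩
  · obtain ⟨a, n₀, h⟩ := part_window
    refine ⟨a, n₀, ?_⟩
    intro n hn s t
    obtain ⟨F, ⟨N, h1, _, h3⟩, h4⟩ := h n hn s t
    refine ⟨N, h1, ?_⟩
    intro p hp hp1 D
    have hp0 : 0 ≤ p := le_trans (by positivity) hp
    rw [rightOn_iff]
    refine le_trans (pr_mono hp0 hp1 ?_) (h4 p hp hp1 D)
    intro R hR
    rwa [h3] at hR
  · intro δ hδ p hp
    have h := equiv_below hδ p (fun n => (hp n).1) (fun n => (hp n).2.1) (fun n => (hp n).2.2)
    simp only [rightOn_iff]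
    exact h
  · intro δ hδ
    obtain ⟨η, hη, n₀, h⟩ := mono_below hδ
    refine ⟨η, hη, n₀, ?_⟩
    intro n hn p hp0 hp s t hst N hN hR
    exact h n hn p hp0 hp s t hst N hN (fun D hD => (rightOn_iff N s t p D _).mp (hR D hD))
  · obtain ⟨C, hC, h⟩ := negated_below
    refine ⟨C, hC, ?_⟩
    intro m n p hp0 hp1 f s t hst hshort N hN
    rw [prob_eq] at hshort
    exact h m n p hp0 hp1 f s t hst hshort N
      (fun H => (rightOn_iff N (f s) (f t) p _ _).mp (hN H))

end Pool.Agent.Results.MP_e46137_lc.NoiseThreshold
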