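import Pool.Agent.L5helper51.TA.Lower
import Pool.Agent.L5helper51.TA.Upper

/-!
# Savitch's theorem is optimal for circuits of small width with few NOT gates

Directed `s`-`t`-connectivity is complete for `NL`. In nonuniform terms, `NL ⊆ L` would give it
programs with polynomially many steps and `O(log N)` one-bit registers, that is, circuits of
logarithmic width. We consider such programs with monotone steps and few NOT gates: there are `r`
one-bit registers; in a monotone step the program visits a vertex `x` and replaces the contents of all
registers by ARBITRARY monotone Boolean functions of the old contents and of the variables of the pairs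
which contain `x`; a NOT gate negates the content of one register. Special cases are circuits of width
`r / 2` with `k` NOT gates.

Savitch's recursion is such a program (without NOT gates) with `O(log² N)` registers and
`N ^ O(log N)` steps, and the algorithm of Barnes, Buss, Ruzzo and Schieber is such a program with
`N / 2 ^ Θ(√log N)` registers and polynomially many steps. We prove that both are optimal, and so are the
programs with numbers of registers in between, even among the programs with up to
`log₂ (N / r) / 20` NOT gates: the least number of steps is `2 ^ Θ(log² (N / r))`, up to a factor
`N ^ O(1)`. In particular polynomially many steps need `N / 2 ^ O(√log N)` registers, and with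
`N ^ (1 - ε)` registers (let alone polylogarithmically many: monotone `SC`) one needs `N ^ Ω(log N)`
steps. The lower bound holds already for acyclic graphs, and also for undirected graphs, and for
randomized programs with two-sided error, as soon as the probabilities of acceptance with and without a
path differ by `1 / q`, where `2 ^ k q ≤ (N / r) ^ (1 / 20)`. (Without a restriction on the width,
`2 log₂ N + 1` NOT gates are as good as arbitrarily many, by Markov and Fischer.)

Proof. A background is given by a source side and a sink side, disjoint sets of vertices of a layered
graph; all pairs inside a side are edges. Call a path a completion of a window of the program if, after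
this window has been executed, some register is `1` for the background with this path, but `0` for a
slightly larger background without it. By a hitting set argument there is a chain `C 0 ≤ C 1 ≤ ...` of
backgrounds, each with few vertices, such that for (almost all random choices and) every window, all
contents of the registers at its start and all small additional sets of vertices, most bundles of
parallel pieces of paths added to `C c` switch on no register which is `0` for `C (c + 1)`. Divide a
window into `g` parts and increase `c` by one from part to part. If a path of length `2 ^ (i + 1)`
is completed, there is a first part in which it is completed. Replace its first half by a random one: if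
the second half is not completed in this part (with the first half in the background), then the path is
not completed either, by saturation. So both halves must be completed in this part, for most choices of
the other half, and a lemma on products shows that the probability is squared (up to a small error),
while there are only `g` parts. A window with one step completes a path with two edges only if it visits
the vertex in the middle. So a program of length `g ^ i` distinguishes `C c` with a path of length
`2 ^ (i + 1)` from `C (c + 1 + i g)` only for few paths. NOT gates: along a chain of graphs their results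
change less than `2 ^ k` times, so there is a piece of the chain on which they are constant; then they
are the same for `C c` with most paths.
-/

set_option autoImplicit false

namespace Pool.Agent.Results.MP_e46137_lc.SmallWidth

open Pool.Agent.L5helper51.SZ (Step Reach Acyclic Undirected)
open Pool.Agent.L5helper51.TA (Ins run negs)

/-- Lower bound: let `P ω` be a family of programs with at most `T` instructions, at most `k` of them
NOT gates, and `r = |R|` one-bit registers on graphs with `N = |V|` vertices. Let `G` be the acyclic or
the undirected graphs, and assume that for `H`, `H'` in `G` the fraction of the programs which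
accept `H` is larger than the fraction of the programs which accept `H'`, at least by `1 / q`, if `t` can
be reached from `s` in `H` but not in `H'`. Then `log₂ T ≥ (log₂ (N / r)) ^ 2 / 400` if
`N ≥ 2 ^ 1500 r` and `(2 ^ k q) ^ 20 ≤ N / r`; and if `T ≤ N ^ c` then
`N ≤ r max (2 ^ 1500, (2 ^ k q) ^ 20, 2 ^ (20 √(c log₂ N)))`.

Upper bound: for all `i` with `2 ^ i ≤ N` there is a program of elementary monotone steps which decides
for all graphs whether `t` can be reached from `s`, with at most `7 (i + 1) (log₂ N + 2) (N / 2 ^ i)`
registers and at most `128 N ^ 9 2 ^ (i ^ 2)` steps. -/
theorem result :
    (∀ (V R Ω : Type) [Fintype V] [Fintype R] [Fintype Ω] [Nonempty Ω] (s t : V), s ≠ t →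
      ∀ (P : Ω → List (Ins V R)) (out : R) (q k T : ℕ) (G : Set (V × V) → Prop),
      G = Acyclic ∨ G = Undirected →
      (∀ ω, (P ω).length ≤ T) → (∀ ω, negs (P ω) ≤ k) →
      (∀ H H', G H → G H' → Reach H s t → ¬ Reach H' s t →
        q * Nat.card {ω // out ∈ run H' (P ω) ∅} + Nat.card Ω ≤
          q * Nat.card {ω // out ∈ run H (P ω) ∅}) →
      (2 ^ 1500 * Fintype.card R ≤ Fintype.card V →
        (2 ^ k * q) ^ 20 * Fintype.card R ≤ Fintype.card V →
        Real.logb 2 ((Fintype.card V : ℝ) / Fintype.card R) ^ 2 / 400 ≤ Real.logb 2 T) ∧
      (∀ c : ℝ, 0 ≤ c → (T : ℝ) ≤ (Fintype.card V : ℝ) ^ c →
        (Fintype.card V : ℝ) ≤ Fintype.card R * max (max (2 ^ 1500) ((2 ^ k * q : ℝ) ^ 20))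
          (2 ^ (20 * √(c * Real.logb 2 (Fintype.card V)))))) ∧
    (∀ (V : Type) [Fintype V] (s t : V), s ≠ t → ∀ i : ℕ, 2 ^ i ≤ Fintype.card V →
      ∃ (R : Type) (_ : Fintype R) (P : List (Ins V R)) (out : R),
        (∀ I ∈ P, ∃ S : Step V R, I = Ins.mon S ∧ S.Elementary) ∧
        (∀ H : Set (V × V), out ∈ run H P ∅ ↔ Reach H s t) ∧
        Fintype.card R ≤
          7 * (i + 1) * (Nat.log 2 (Fintype.card V) + 2) * (Fintype.card V / 2 ^ i) ∧
        P.length ≤ 128 * Fintype.card V ^ 9 * 2 ^ (i ^ 2)) := by
  refine ⟨?_, fun V _ s t hst i hi => Pool.Agent.L5helper51.TA.upper_bound hst hi⟩
  intro V R Ω _ _ _ _ s t hst P out q k T G hG h1 h2 h3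
  have hr : 0 < Fintype.card R := Fintype.card_pos_iff.2 ⟨out⟩
  have hq : 0 < q := Pool.Agent.L5helper51.TA.pos_of_adv hst hG h3
  have h4 : ∀ m : ℕ, 1 ≤ m → 2 ^ (19 * m + 56) * Fintype.card R ≤ Fintype.card V →
      2 ^ k * q ≤ 2 ^ m → T ≤ 2 ^ (m ^ 2) → False := by
    intro m hm hV hkq hT
    rcases hG with rfl | rfl
    · exact Pool.Agent.L5helper51.TA.core_acyclic hst hm hV hq hkq (fun ω => (h1 ω).trans hT) h2 h3
    · exact Pool.Agent.L5helper51.TA.core_undirected hst hm hV hq hkq (fun ω => (h1 ω).trans hT) h2
        h3
  have h5 := fun (hN : 2 ^ 1500 * Fintype.card R ≤ Fintype.card V)
    (hp : (2 ^ k * q) ^ 20 * Fintype.card R ≤ Fintype.card V) =>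
    Pool.Agent.L5helper51.TA.log_form (T := T) hr hN hp h4
  refine ⟨h5, fun c hc hT => ?_⟩
  have h6 := Pool.Agent.L5helper51.TA.registers_form hr hc hT h5
  push_cast at h6
  exact h6

end Pool.Agent.Results.MP_e46137_lc.SmallWidth
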