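import Pool.Agent.L5helper51.SX.Elem
import Pool.Agent.L5helper51.SY.Log

/-!
# A tight register/time tradeoff for directed connectivity over `(min, +)`

Directed `s`-`t`-connectivity is complete for `NL`; its weighted form is the least weight of a walk
from `s` to `t` (connectivity: weights in `{0, ∞}`). We consider oblivious algorithms over the
semiring `(min, +)`. In one step such an algorithm visits a vertex `x` and replaces the contents of its
`r` registers by arbitrary `(min, +)` polynomials in the old contents and in the weights of the pairs
`(x, y)`. Savitch's recursion (`O(log N)` registers, `N ^ O(log N)` steps) and the Bellman–Ford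
algorithm (about `2 N` registers, `N ^ O(1)` steps) are such algorithms.

We show that the least number of steps is `2 ^ Θ(log N + log² (N / r))` for every number `r` of
registers between `C log² N` and `N`. The lower bound holds also for randomized algorithms with
one-sided error, for weights in `{0, 1, ∞}`, and, if `N / r` is large, for approximating the least
weight up to any constant factor below 2. The upper bound is deterministic, for all weights, and by
elementary steps (a register gets a weight, a constant, or the minimum or the sum of two registers).
In particular `N / 2 ^ Θ(√log N)` registers are necessary and sufficient for polynomially many steps: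
the space of the algorithm of Barnes, Buss, Ruzzo and Schieber, which is the best known for
polynomial time, is optimal in this model, and so is Savitch's algorithm for few registers; and one
gains nothing by computing only a `(2 - ε)`-approximation.

Lower bound. Give the registers formal contents (sets of monomials). A sound algorithm must produce
exactly the monomial of every path through a layered graph. By exchanging the contents of registers,
all useful monomials of a register cover the same layers, and they agree on the vertices at the
boundaries of the covered parts. Hence if the part of a random path between two layers at distance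
`2 ^ i` is put together within a window of `T` steps, then it is put together in the first or in the
second half of the window, or one of the `r` registers determines one of its vertices (probability
at most `r / M`). On the other hand both halves of this part of the path must have been put together
within the window, and these events are independent given the vertex in the middle. Both recursions
together show that the probability is at most `T / (4 g ^ (i + 1))` if the layers have
`M = 4 g ^ 2 r` vertices.

Approximation. Now the monomials may contain edges of the path several times, but if the factor is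
at most `2 - ε`, then at least the fraction `ε` of the edges occurs exactly once, and the argument
above works for the parts of the path which have such edges, with a budget for the other parts.

Upper bound. By counting there are few small tuples of vertices such that for every path one of them
meets all its parts with `2 ^ i` edges. For one tuple, iterate hops of at most `2 ^ i` edges between
its vertices; the hops are computed by Savitch's recursion on blocks of vertices.
-/

set_option autoImplicit false

namespace Pool.Agent.Results.MP_e46137_lc.TightTradeoff

open Pool.Agent.L5helper51.SX (Step value)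
open Pool.Agent.L5helper51.SV (dist)

/-- Lower bound: let `P ω` be a family of programs with at most `T` steps, which never underestimate
the least weight of a walk from `s` to `t` for weights in `{0, 1, ∞}` on the pairs of `N = |V|`
vertices, and such that for all these weights at least `1 / q` of the programs give its exact value.
Then `N ≤ q T + 1`; `2 ^ ((i - 1) ^ 2) ≤ (q T) ^ 8` whenever `i ≥ 3` and `2 ^ i |R| ≤ N`; and if
`q T ≤ N ^ c`, then `|R| ≥ N / 2 ^ (3 + √(8 c log₂ N))`.

Approximation: let `1 ≤ a / b < 2`. There is a constant `Λ` such that the following holds if
`Λ |R| ≤ N` and at least `1 / q` of the programs give a value between the least weight and `a / b`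
times the least weight: `log₂ (q T) ≥ (2 - a / b) ^ 2 / 256 * (log₂ (N / |R|)) ^ 2`.

Upper bound: for all `i` with `2 ^ i ≤ N` there is a program of elementary steps which computes the
least weight of a walk from `s` to `t` for all weights, with at most
`7 (i + 1) (log₂ N + 2) (N / 2 ^ i)` registers and at most `128 N ^ 9 2 ^ (i ^ 2)` steps. -/
theorem result :
    (∀ (V R Ω : Type) [Fintype V] [Fintype R] [Fintype Ω] [Nonempty Ω] (s t : V), s ≠ t →
      ∀ (P : Ω → List (Step V R)) (out : R) (q T : ℕ),
      (∀ ω, (P ω).length ≤ T) →
      (∀ ω, ∀ w : V × V → ℕ∞, (∀ e, w e = 0 ∨ w e = 1 ∨ w e = ⊤) →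
        dist w s t ≤ value (P ω) out w) →
      (∀ w : V × V → ℕ∞, (∀ e, w e = 0 ∨ w e = 1 ∨ w e = ⊤) →
        Nat.card Ω ≤ q * Nat.card {ω // value (P ω) out w = dist w s t}) →
      Fintype.card V ≤ q * T + 1 ∧
      (∀ i : ℕ, 3 ≤ i → 2 ^ i * Fintype.card R ≤ Fintype.card V →
        2 ^ ((i - 1) ^ 2) ≤ (q * T) ^ 8) ∧
      (∀ c : ℝ, ((q * T : ℕ) : ℝ) ≤ (Fintype.card V : ℝ) ^ c →
        (Fintype.card V : ℝ) / 2 ^ (3 + √(8 * c * Real.logb 2 (Fintype.card V))) ≤
          Fintype.card R)) ∧
    (∀ a b : ℕ, 0 < b → b ≤ a → a < 2 * b → ∃ Λ : ℝ, 0 < Λ ∧
      ∀ (V R Ω : Type) [Fintype V] [Fintype R] [Fintype Ω] [Nonempty Ω] (s t : V), s ≠ t →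
      ∀ (P : Ω → List (Step V R)) (out : R) (q T : ℕ),
      (∀ ω, (P ω).length ≤ T) →
      (∀ ω, ∀ w : V × V → ℕ∞, (∀ e, w e = 0 ∨ w e = 1 ∨ w e = ⊤) →
        dist w s t ≤ value (P ω) out w) →
      (∀ w : V × V → ℕ∞, (∀ e, w e = 0 ∨ w e = 1 ∨ w e = ⊤) →
        Nat.card Ω ≤ q * Nat.card {ω // b * value (P ω) out w ≤ a * dist w s t}) →
      Λ * Fintype.card R ≤ Fintype.card V →
      (2 - (a : ℝ) / b) ^ 2 / 256 *
          (Real.logb 2 ((Fintype.card V : ℝ) / Fintype.card R)) ^ 2 ≤
        Real.logb 2 ((q * T : ℕ) : ℝ)) ∧
    (∀ (V : Type) [Fintype V] (s t : V), s ≠ t → ∀ i : ℕ, 2 ^ i ≤ Fintype.card V →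
      ∃ (R : Type) (_ : Fintype R) (P : List (Step V R)) (out : R),
        (∀ S ∈ P, S.Elementary) ∧ (∀ w : V × V → ℕ∞, value P out w = dist w s t) ∧
        Fintype.card R ≤
          7 * (i + 1) * (Nat.log 2 (Fintype.card V) + 2) * (Fintype.card V / 2 ^ i) ∧
        P.length ≤ 128 * Fintype.card V ^ 9 * 2 ^ (i ^ 2)) := by
  classical
  refine ⟨?_, ?_, fun V _ s t hst i hi => Pool.Agent.L5helper51.SX.upper_bound hst hi⟩
  · intro V R Ω _ _ _ _ s t hst P out q T h1 h2 h3
    have hP : Pool.Agent.L5helper51.SX.Randomized P out s t q T := ⟨h1, h2, h3⟩
    exact ⟨Pool.Agent.L5helper51.SX.card_le hst hP,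
      fun i hi hV => Pool.Agent.L5helper51.SX.lower_pow hst hP hi hV,
      fun c hT => Pool.Agent.L5helper51.SX.registers_ge hst hP hT⟩
  · intro a b hb hab hab2
    obtain ⟨Λ, hΛ, h⟩ := Pool.Agent.L5helper51.SX.approx_log a b hb hab hab2
    refine ⟨Λ, hΛ, ?_⟩
    intro V R Ω _ _ _ _ s t hst P out q T h1 h2 h3 hVR
    exact h V R Ω s t hst P out q T ⟨h1, h2, h3⟩ hVR

end Pool.Agent.Results.MP_e46137_lc.TightTradeoff
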